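import Pool.Agent.W142.TF.Stm
import Pool.Agent.W654.Kron

/-!
TF-KRO: powers of finitely many points of infinite order close to nontrivial roots of unity.
-/

set_option autoImplicit false

namespace Pool.Agent.W196.TF

open Pool.Agent.W142.TF

theorem functional {A ι : Type} [AddCommGroup A] [Fintype ι] (z : ι → A) (S : Set ι)
    (hS : ∀ i ∈ S, ∀ N : ℕ, 0 < N → N • z i ≠ 0) :
    ∃ v : ι → ℤ, (∀ i ∈ S, v i ≠ 0) ∧
      ∀ k : ι → ℤ, ∑ i, k i • z i = 0 → ∑ i, k i * v i = 0 := by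
  classical
  let Kc : Set (ι → ℚ) := {x | ∃ k : ι → ℤ, ∑ i, k i • z i = 0 ∧ x = fun i => (k i : ℚ)}
  let W : Submodule ℚ (ι → ℚ) := Submodule.span ℚ Kc
  have hW : ∀ x ∈ W, ∃ N : ℕ, 0 < N ∧ ∃ k : ι → ℤ, ∑ i, k i • z i = 0 ∧
      ∀ i, (N : ℚ) * x i = (k i : ℚ) := by
    intro x hx
    induction hx using Submodule.span_induction with
    | mem x h =>
      obtain ⟨k, hk, rfl⟩ := h
      exact ⟨1, one_pos, k, hk, fun i => by simp⟩
    | zero => exact ⟨1, one_pos, 0, by simp, fun i => by simp⟩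
    | add x y _ _ hx hy =>
      obtain ⟨N, hN, k, hk, e⟩ := hx
      obtain ⟨M, hM, l, hl, e'⟩ := hy
      refine ⟨N * M, Nat.mul_pos hN hM, fun i => (M : ℤ) * k i + (N : ℤ) * l i, ?_, fun i => ?_⟩
      · have h1 : ∑ i, ((M : ℤ) * k i + (N : ℤ) * l i) • z i =
            (M : ℤ) • ∑ i, k i • z i + (N : ℤ) • ∑ i, l i • z i := by
          rw [Finset.smul_sum, Finset.smul_sum, ← Finset.sum_add_distrib]
          apply Finset.sum_congr rfl
          intro i _
          rw [add_smul, mul_smul, mul_smul]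
        rw [h1, hk, hl, smul_zero, smul_zero, add_zero]
      · have h1 := e i
        have h2 := e' i
        push_cast
        rw [Pi.add_apply]
        linear_combination (M : ℚ) * h1 + (N : ℚ) * h2
    | smul a x _ hx =>
      obtain ⟨N, hN, k, hk, e⟩ := hx
      refine ⟨a.den * N, Nat.mul_pos a.den_pos hN, fun i => a.num * k i, ?_, fun i => ?_⟩
      · have h1 : ∑ i, (a.num * k i) • z i = a.num • ∑ i, k i • z i := by
          rw [Finset.smul_sum]
          apply Finset.sum_congr rfl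
          intro i _
          rw [mul_smul]
        rw [h1, hk, smul_zero]
      · have h1 := e i
        have h2 : a * a.den = a.num := Rat.mul_den_eq_num a
        push_cast
        rw [Pi.smul_apply, smul_eq_mul]
        linear_combination (a.num : ℚ) * h1 + (N : ℚ) * x i * h2
  have hsingle : ∀ i ∈ S, (Pi.single i (1 : ℚ) : ι → ℚ) ∉ W := by
    intro i hi hmem
    obtain ⟨N, hN, k, hk, e⟩ := hW _ hmem
    have hki : k i = N := by
      have h1 := e i
      rw [Pi.single_eq_same, mul_one] at h1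
      exact_mod_cast h1.symm
    have hkj : ∀ j, j ≠ i → k j = 0 := by
      intro j hj
      have h1 := e j
      rw [Pi.single_eq_of_ne hj, mul_zero] at h1
      exact_mod_cast h1.symm
    rw [Finset.sum_eq_single i (fun j _ hj => by rw [hkj j hj, zero_smul])
      (fun h => absurd (Finset.mem_univ i) h), hki] at hk
    apply hS i hi N hN
    rw [← hk, natCast_zsmul]
  obtain ⟨f, hf⟩ := Module.exists_dual_forall_apply_ne_zero (K := ℚ) (M := (ι → ℚ) ⧸ W)
    (fun i : S => W.mkQ (Pi.single i.1 1)) (fun i h => by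
      rw [Submodule.mkQ_apply, Submodule.Quotient.mk_eq_zero] at h
      exact hsingle i.1 i.2 h)
  let F : ι → ℚ := fun i => f (W.mkQ (Pi.single i 1))
  let D : ℕ := ∏ i, (F i).den
  have hD : D ≠ 0 := Finset.prod_ne_zero_iff.mpr fun i _ => (F i).den_nz
  have hv : ∀ i, ∃ c : ℤ, (c : ℚ) = D * F i := by
    intro i
    obtain ⟨c, hc⟩ : (F i).den ∣ D := Finset.dvd_prod_of_mem _ (Finset.mem_univ i)
    refine ⟨c * (F i).num, ?_⟩
    have h2 : F i * (F i).den = (F i).num := Rat.mul_den_eq_num (F i)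
    rw [hc]
    push_cast
    linear_combination -(c : ℚ) * h2
  choose v hv using hv
  refine ⟨v, fun i hi h0 => ?_, fun k hk => ?_⟩
  · have h1 := hv i
    rw [h0, Int.cast_zero] at h1
    rcases mul_eq_zero.mp h1.symm with h2 | h2
    · exact hD (by exact_mod_cast h2)
    · exact hf ⟨i, hi⟩ h2
  · have h1 : (fun i => (k i : ℚ)) ∈ W := Submodule.subset_span ⟨k, hk, rfl⟩
    have h2 : (∑ i, (k i : ℚ) * F i) = 0 := by
      have h3 : f (W.mkQ (fun i => (k i : ℚ))) = 0 := by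
        rw [Submodule.mkQ_apply, (Submodule.Quotient.mk_eq_zero W).mpr h1, map_zero]
      have h4 : (fun i => (k i : ℚ)) = ∑ i, (k i : ℚ) • (Pi.single i (1 : ℚ) : ι → ℚ) := by
        ext j
        rw [Finset.sum_apply]
        simp [Pi.single_apply]
      rw [h4, map_sum, map_sum] at h3
      rw [← h3]
      apply Finset.sum_congr rfl
      intro i _
      rw [map_smul, map_smul, smul_eq_mul]
    have h5 : ((∑ i, k i * v i : ℤ) : ℚ) = D * ∑ i, (k i : ℚ) * F i := by
      push_cast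
      rw [Finset.mul_sum]
      apply Finset.sum_congr rfl
      intro i _
      rw [hv i]; ring
    rw [h2, mul_zero] at h5
    exact_mod_cast h5

theorem kro : S_kro := by
  classical
  intro Λ hΛ
  -- coordinates
  have hsurj : ∀ θ : Circle, ∃ y : UnitAddCircle, AddCircle.toCircle y = θ := by
    intro θ
    refine ⟨(AddCircle.homeomorphCircle (T := (1 : ℝ)) one_ne_zero).symm θ, ?_⟩
    rw [← AddCircle.homeomorphCircle_apply (T := (1 : ℝ)) one_ne_zero]
    exact (AddCircle.homeomorphCircle (T := (1 : ℝ)) one_ne_zero).apply_symm_apply θ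
  choose Z hZ using hsurj
  let z : Λ → UnitAddCircle := fun i => Z i.1
  obtain ⟨v, hv1, hv2⟩ := functional z {i | i.1 ≠ 1} (by
    intro i hi N hN h0
    apply hΛ i.1 i.2 hi N hN
    have h1 := AddCircle.toCircle_nsmul (z i) N
    rw [h0, AddCircle.toCircle_zero] at h1
    rw [← hZ i.1]
    exact h1.symm)
  refine ⟨1 + ∑ i, (v i).natAbs, ?_⟩
  intro p hp hpP δ hδ
  have hp0 : (p : ℝ) ≠ 0 := by exact_mod_cast hp.ne_zero
  let x : Λ → UnitAddCircle := fun i => (((v i : ℝ) / p : ℝ) : UnitAddCircle)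
  -- uniform continuity
  have huc : UniformContinuous (fun y : UnitAddCircle => ((AddCircle.toCircle y : Circle) : ℂ)) :=
    CompactSpace.uniformContinuous_of_continuous
      (continuous_subtype_val.comp AddCircle.continuous_toCircle)
  rw [Metric.uniformContinuous_iff] at huc
  obtain ⟨ε, hε, hεδ⟩ := huc δ hδ
  have hzx : ∀ k : Λ → ℤ, ∑ i, k i • z i = 0 → ∑ i, k i • x i = 0 := by
    intro k hk
    have h1 := hv2 k hk
    have h2 : ∑ i, k i • x i = (((∑ i, (k i : ℝ) * v i) / p : ℝ) : UnitAddCircle) := by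
      rw [Finset.sum_div]
      have h3 : ((∑ i, (k i : ℝ) * v i / p : ℝ) : UnitAddCircle) =
          ∑ i, (((k i : ℝ) * v i / p : ℝ) : UnitAddCircle) := by
        exact map_sum (QuotientAddGroup.mk' (AddSubgroup.zmultiples (1 : ℝ))) _ _
      rw [h3]
      apply Finset.sum_congr rfl
      intro i _
      have h4 : ((k i : ℝ) * v i / p : ℝ) = k i • ((v i : ℝ) / p) := by
        rw [zsmul_eq_mul, mul_div_assoc]
      rw [h4]
      rfl
    have h5 : (∑ i, (k i : ℝ) * v i) = ((∑ i, k i * v i : ℤ) : ℝ) := by push_cast; rfl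
    rw [h2, h5, h1, Int.cast_zero, zero_div]
    rfl
  obtain ⟨d, hd⟩ := Pool.Agent.W654.Kron.kronecker (d := Λ) z x hzx ε hε
  refine ⟨d, fun θ hθ => ⟨AddCircle.toCircle (x ⟨θ, hθ⟩), ?_, ?_, ?_⟩⟩
  · rw [← AddCircle.toCircle_nsmul]
    have h1 : p • x ⟨θ, hθ⟩ = 0 := by
      have h2 : p • x ⟨θ, hθ⟩ = (((v ⟨θ, hθ⟩ : ℤ) : ℝ) : UnitAddCircle) := by
        change p • (((v ⟨θ, hθ⟩ : ℝ) / p : ℝ) : UnitAddCircle) = _
        rw [← AddCircle.coe_nsmul]
        congr 1
        rw [nsmul_eq_mul, mul_div_cancel₀ _ hp0]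
      rw [h2]
      have h3 : (((v ⟨θ, hθ⟩ : ℤ) : ℝ)) = (v ⟨θ, hθ⟩) • (1 : ℝ) := by simp
      rw [h3, AddCircle.coe_zsmul, AddCircle.coe_period, smul_zero]
    rw [h1, AddCircle.toCircle_zero]
  · intro hθ1 h1
    have h2 : x ⟨θ, hθ⟩ = 0 := by
      apply AddCircle.injective_toCircle (T := (1 : ℝ)) one_ne_zero
      rw [h1, AddCircle.toCircle_zero]
    have h3 : ∃ n : ℤ, (n : ℝ) = (v ⟨θ, hθ⟩ : ℝ) / p := by
      have h4 := (AddCircle.coe_eq_zero_iff (p := (1 : ℝ))).mp h2
      obtain ⟨n, hn⟩ := h4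
      exact ⟨n, by rw [← hn]; simp⟩
    obtain ⟨n, hn⟩ := h3
    have h5 : (v ⟨θ, hθ⟩ : ℤ) = n * p := by
      have : (v ⟨θ, hθ⟩ : ℝ) = n * p := by rw [hn]; field_simp
      exact_mod_cast this
    have h6 : (v ⟨θ, hθ⟩).natAbs < p := by
      have h7 : (v ⟨θ, hθ⟩).natAbs ≤ ∑ i, (v i).natAbs :=
        Finset.single_le_sum (f := fun i => (v i).natAbs) (fun i _ => Nat.zero_le _)
          (Finset.mem_univ (⟨θ, hθ⟩ : Λ))
      omega
    have h8 : v ⟨θ, hθ⟩ ≠ 0 := hv1 ⟨θ, hθ⟩ hθ1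
    rw [h5, Int.natAbs_mul, Int.natAbs_natCast] at h6
    have h9 : n.natAbs ≠ 0 := by
      intro h10
      rw [Int.natAbs_eq_zero] at h10
      rw [h10, zero_mul] at h5
      exact h8 h5
    have h11 : 1 * p ≤ n.natAbs * p := Nat.mul_le_mul_right p (Nat.pos_of_ne_zero h9)
    omega
  · have h1 : dist ((d • z) ⟨θ, hθ⟩) (x ⟨θ, hθ⟩) < ε :=
      lt_of_le_of_lt (dist_le_pi_dist _ _ _) hd
    have h2 := hεδ h1
    have h3 : AddCircle.toCircle ((d • z) ⟨θ, hθ⟩) = θ ^ d := by
      rw [Pi.smul_apply, AddCircle.toCircle_nsmul]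
      congr 1
      exact hZ θ
    rw [h3, dist_eq_norm] at h2
    exact h2.le

end Pool.Agent.W196.TF
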